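import Pool.Agent.H180.PG.Stm
import Pool.Agent.Helper18.Omega1

/-!
# Project PG, job Restr: restriction to a bounded initial segment
-/

set_option autoImplicit false

open Set Topology Cardinal

namespace Pool.Agent.Q238.PG

open Pool.Agent.H180.PG

open Classical in
/-- the restriction of a node to the places below `y` -/
noncomputable def cut {K : Type} (b : Node K) (y : W) : Node K :=
  ⟨fun a => if a < y then b.1 a else none, by
    intro a c hc ha
    by_cases h : a < y
    · simp only [h, if_true] at ha
      simp only [hc.trans h, if_true]
      exact b.2 a c hc ha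
    · simp only [h, if_false] at ha
      exact absurd rfl ha⟩

theorem cut_apply {K : Type} (b : Node K) (y a : W) (h : a < y) : (cut b y).1 a = b.1 a := by
  simp only [cut, h, if_true]

theorem cut_apply' {K : Type} (b : Node K) (y a : W) (h : ¬ a < y) : (cut b y).1 a = none := by
  simp only [cut, h, if_false]

theorem restr : S_Restr := by
  intro K b _ C hC hT
  have h1 : ∀ c ∈ C, ∃ x : W, c.1 x = none := by
    intro c hc
    have := hT c hc
    unfold Pool.Agent.H180.PG.Top at this
    push Not at this
    exact this
  choose! x hx using h1
  obtain ⟨y, hy⟩ := Pool.Agent.Helper18.Omega1.countable_bdd (x '' C) (hC.image x)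
  refine ⟨cut b y, ?_, ?_, ?_⟩
  · intro h
    exact h y (cut_apply' b y y (lt_irrefl y))
  · intro a ha
    by_cases h : a < y
    · exact (cut_apply b y a h).symm
    · exact absurd (cut_apply' b y a h) ha
  · intro c hc hcb a ha
    have h2 : a < y := by
      have h3 : a < x c := by
        by_contra hcon
        rcases eq_or_lt_of_le (not_lt.1 hcon) with h4 | h4
        · exact ha (h4 ▸ hx c hc)
        · exact c.2 a (x c) h4 ha (hx c hc)
      exact h3.trans (hy _ ⟨c, hc, rfl⟩)
    rw [cut_apply b y a h2]
    exact hcb a ha

end Pool.Agent.Q238.PG
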